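import Pool.Agent.Helper77.CR.Defs

/-!
# CR-IDENT: the identity for the Euler characteristics
-/

namespace Pool.Agent.Helper77.CR

open Pool.Agent.Helper9.FA (Item Cor Ang wfP labels)
open Pool.Agent.Helper9.TW (Lab Conn)
open Pool.Agent.Helper28.TX (PV Pot)

variable {α : Type}

namespace Ident

/-- the number of adjacent pairs `true, true` -/
def NN : List Bool → ℤ
  | a :: b :: t => bz (a && b) + NN (b :: t)
  | _ => 0

lemma NN_append (l : List Bool) (a : Bool) (r : List Bool) :
    NN (l ++ a :: r) = NN (l ++ [a]) + NN (a :: r) := by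
  induction l with
  | nil => simp [NN]
  | cons x l ih =>
    cases l with
    | nil => simp [NN]
    | cons y l =>
      simp only [List.cons_append, NN] at ih ⊢
      rw [ih]; ring

lemma gen {P : List (Item α)} {c : List Bool} {θ : List (PV Bool)} {e : List (Bool × Bool × Bool)}
    (h : Pot false false P c θ e) :
    ((θ.map tw).sum : ℤ) - ((θ.map kap).sum : ℤ) - 2 * EU θ e + 2 * EC θ e =
      2 * (c.map bz).sum - NN c := by
  induction h with
  | nil => simp [EU, EC, NN, bz]
  | @cup P l r a m θ e h ih =>
    have h1 : EU θ ((true, a, m) :: e) = EU θ e + bz m := by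
      simp [EU]; ring
    have h2 : EC θ ((true, a, m) :: e) = EC θ e - bz (a && !m) := by
      simp [EC]; ring
    have h3 := NN_append l a (m :: a :: r)
    have h4 := NN_append l a r
    have h5 : NN (a :: m :: a :: r) = bz (a && m) + (bz (m && a) + NN (a :: r)) := rfl
    simp only [List.map_append, List.map_cons, List.sum_append, List.sum_cons] at ih ⊢
    rw [h1, h2, h4]
    rw [h3, h5] at ih
    have h6 : bz (a && m) + bz (m && a) = 2 * bz a + 2 * bz m - 2 * bz m - 2 * bz (a && !m) := by
      cases a <;> cases m <;> simp [bz]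
    linarith
  | @cap P l r a m θ e h ih =>
    have h1 : EU θ ((false, a, m) :: e) = EU θ e - bz a := by
      simp [EU]; ring
    have h2 : EC θ ((false, a, m) :: e) = EC θ e + bz (m && !a) := by
      simp [EC]; ring
    have h3 := NN_append l a (m :: a :: r)
    have h4 := NN_append l a r
    have h5 : NN (a :: m :: a :: r) = bz (a && m) + (bz (m && a) + NN (a :: r)) := rfl
    simp only [List.map_append, List.map_cons, List.sum_append, List.sum_cons] at ih ⊢
    rw [h1, h2, h3, h5]
    rw [h4] at ih
    have h6 : bz (a && m) + bz (m && a) = 2 * bz m - 2 * bz (m && !a) := by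
      cases a <;> cases m <;> simp [bz]
    linarith
  | @box P l r x q θ e h ih =>
    have h1 : EU (q :: θ) e = EU θ e + bz q.T := by
      simp [EU]; ring
    have h2 : EC (q :: θ) e = EC θ e + kc q := by
      simp [EC]; ring
    have h3 := NN_append l q.L (q.B :: q.R :: r)
    have h4 := NN_append l q.L (q.T :: q.R :: r)
    have h5 : NN (q.L :: q.B :: q.R :: r) = bz (q.L && q.B) + (bz (q.B && q.R) + NN (q.R :: r)) :=
      rfl
    have h5' : NN (q.L :: q.T :: q.R :: r) = bz (q.L && q.T) + (bz (q.T && q.R) + NN (q.R :: r)) :=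
      rfl
    simp only [List.map_append, List.map_cons, List.sum_append, List.sum_cons, Nat.cast_add]
      at ih ⊢
    rw [h1, h2, h3, h5]
    rw [h4, h5'] at ih
    have h6 : (tw q : ℤ) - kap q - 2 * bz q.T + 2 * kc q = 2 * bz q.B - 2 * bz q.T -
        (bz (q.L && q.B) + bz (q.B && q.R)) + (bz (q.L && q.T) + bz (q.T && q.R)) := by
      obtain ⟨L, B, R, T⟩ := q
      cases L <;> cases B <;> cases R <;> cases T <;> simp [bz, tw, kap, kc]
    linarith

end Ident

theorem ident {P : List (Item α)} {θ : List (PV Bool)} {e : List (Bool × Bool × Bool)}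
    (h : Pot false false P [false, false] θ e) :
    ((θ.map tw).sum : ℤ) - 2 * EU θ e = ((θ.map kap).sum : ℤ) - 2 * EC θ e := by
  have h1 := Ident.gen h
  have h2 : (([false, false] : List Bool).map bz).sum = 0 := by simp [bz]
  have h3 : Ident.NN [false, false] = 0 := by simp [Ident.NN, bz]
  rw [h2, h3] at h1
  linarith

end Pool.Agent.Helper77.CR
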