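import Pool.Agent.Helper77.CR.Defs

/-!
# CR-SIG: from marked regions to labellings
-/

namespace Pool.Agent.Helper77.CR

open Pool.Agent.Helper9.FA (Item Cor Ang wfP labels)
open Pool.Agent.Helper9.TW (Lab Conn)
open Pool.Agent.Helper28.TX (PV Pot)

variable {α : Type}

namespace Sig

lemma ors_append (l : List Bool) (a : Bool) (r : List Bool) :
    ors (l ++ a :: r) = ors (l ++ [a]) ++ ors (a :: r) := by
  induction l with
  | nil => simp [ors]
  | cons x l ih =>
    cases l with
    | nil => simp [ors]
    | cons y l =>
      simp only [List.cons_append, ors] at ih ⊢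
      rw [ih]

lemma ors_length (l : List Bool) (a : Bool) : (ors (l ++ [a])).length = l.length := by
  induction l with
  | nil => simp [ors]
  | cons x l ih =>
    cases l with
    | nil => simp [ors]
    | cons y l =>
      simp only [List.cons_append, ors, List.length_cons] at ih ⊢
      omega

lemma ors3 (l r : List Bool) (a b c : Bool) :
    ors (l ++ a :: b :: c :: r) = ors (l ++ [a]) ++ (a || b) :: (b || c) :: ors (c :: r) := by
  rw [ors_append]; rfl

lemma jump1 {P : List (Item α)} {n : ℕ} {τ : List (Bool × Bool)} {l r : List Bool} {x y : Bool}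
    (t : Bool) (h : Cuts P n τ (l ++ x :: y :: r)) : Cuts P (n + 1) τ (l ++ t :: y :: r) :=
  Cuts.jump h

lemma jump2 {P : List (Item α)} {n : ℕ} {τ : List (Bool × Bool)} {l r : List Bool} {x y : Bool}
    (t : Bool) (h : Cuts P n τ (l ++ x :: y :: r)) : Cuts P (n + 1) τ (l ++ x :: t :: r) := by
  have h1 : Cuts P n τ ((l ++ [x]) ++ y :: r) := by simpa using h
  have h2 := Cuts.jump (t := t) h1
  simpa using h2

/-- the step at a vertex -/
lemma box_step {P : List (Item α)} {n : ℕ} {τ : List (Bool × Bool)} {l r : List Bool}
    {q : PV Bool} {y : Bool × Bool} (x : α) (hq : SR q y)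
    (h : Cuts P n τ (l ++ (q.L || q.T) :: (q.T || q.R) :: r)) :
    Cuts (.box l.length x :: P) (kap q + n) (y :: τ) (l ++ (q.L || q.B) :: (q.B || q.R) :: r) := by
  obtain ⟨L, B, R, T⟩ := q
  rcases hq with ⟨hL, hR, rfl⟩ | ⟨hLR, rfl⟩ | ⟨hx, hB, hT, rfl⟩
  · simp only at hL hR h ⊢
    subst hL hR
    cases B <;> cases T <;> simp [kap] at h ⊢
    · exact Cuts.box h
    · rw [add_comm]; exact Cuts.split h
    · rw [add_comm]; exact Cuts.split h
    · exact Cuts.box h
  · simp only at hLR h ⊢
    cases L <;> cases R <;> cases B <;> cases T <;> simp [kap] at hLR h ⊢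
    · -- L = false, R = true, B = false, T = false
      rw [add_comm]
      exact jump1 false (Cuts.box (jump1 true h))
    · rw [add_comm]
      exact jump1 false (Cuts.box h)
    · rw [add_comm]
      exact Cuts.box (jump1 true h)
    · exact Cuts.box h
    · rw [add_comm]
      exact jump2 false (Cuts.box (jump2 true h))
    · rw [add_comm]
      exact jump2 false (Cuts.box h)
    · rw [add_comm]
      exact Cuts.box (jump2 true h)
    · exact Cuts.box h
    · exact Cuts.box h
    · exact Cuts.box h
    · exact Cuts.box h
    · exact Cuts.box h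
  · simp only at hx hB hT h ⊢
    subst hB hT
    cases L <;> cases R <;> simp [kap] at hx h ⊢
    · rw [add_comm]
      exact jump2 true (Cuts.box (jump2 false h))
    · rw [add_comm]
      exact jump1 true (Cuts.box (jump1 false h))

end Sig

open Sig in
theorem sig {P : List (Item α)} {c : List Bool} {θ : List (PV Bool)} {e : List (Bool × Bool × Bool)}
    (h : Pot false false P c θ e) {τ : List (Bool × Bool)} (hτ : List.Forall₂ SR θ τ) :
    Cuts P (θ.map kap).sum τ (ors c) := by
  induction h generalizing τ with
  | nil =>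
    cases hτ
    exact Cuts.nil
  | @cup P l r a m θ e h ih =>
    have h1 := ih hτ
    rw [ors3, Bool.or_comm m a] at h1
    have h2 := Cuts.cup h1
    rw [ors_length, ← ors_append] at h2
    exact h2
  | @cap P l r a m θ e h ih =>
    have h1 := ih hτ
    rw [ors_append] at h1
    have h2 := Cuts.cap (s := (a || m)) h1
    rw [ors_length] at h2
    rw [ors3, Bool.or_comm m a]
    exact h2
  | @box P l r x q θ e h ih =>
    cases hτ with
    | @cons _ y _ τ' hq hτ' =>
      have h1 := ih hτ'
      rw [ors3] at h1
      rw [ors3]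
      have h2 := box_step x hq h1
      rw [ors_length] at h2
      simp only [List.map_cons, List.sum_cons]
      exact h2

namespace Sig

/-- truth values as numbers -/
noncomputable def fz (b : Bool) : ℝ := if b = true then 1 else 0

lemma fz_eq {b : Bool} (h : fz b = 0) : b = false := by
  cases b
  · rfl
  · simp [fz] at h

lemma fz_false : fz false = 0 := by simp [fz]

lemma cuts_lab {P : List (Item α)} {n : ℕ} {τ : List (Bool × Bool)} {u : List Bool}
    (h : Cuts P n τ u) (hn : n = 0) : ∃ L, Lab P L (u.map fz) ∧
      ((∀ s ∈ L, s = 0) → (∀ b ∈ u, b = false) ∧ ∀ x ∈ τ, x = (false, false)) := by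
  induction h with
  | nil => exact ⟨[], by simpa [fz] using (Lab.nil : Lab ([] : List (Item α)) [] [0]), by simp⟩
  | @cup P n τ l r s h ih =>
    obtain ⟨L, h1, h2⟩ := ih hn
    rw [List.map_append, List.map_cons, List.map_cons] at h1
    have h3 := Lab.cup h1
    rw [List.length_map, ← List.map_append] at h3
    refine ⟨L, h3, fun hL => ?_⟩
    obtain ⟨h4, h5⟩ := h2 hL
    refine ⟨fun b hb => h4 b ?_, h5⟩
    simp only [List.mem_append, List.mem_cons] at hb ⊢
    tauto
  | @cap P n τ l r s h ih =>
    obtain ⟨L, h1, h2⟩ := ih hn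
    rw [List.map_append] at h1
    have h3 := Lab.cap (s := fz s) h1
    rw [List.length_map] at h3
    refine ⟨fz s :: L, by simpa using h3, fun hL => ?_⟩
    obtain ⟨h4, h5⟩ := h2 (fun x hx => hL x (List.mem_cons_of_mem _ hx))
    have h6 : s = false := fz_eq (hL _ List.mem_cons_self)
    refine ⟨fun b hb => ?_, h5⟩
    simp only [List.mem_append, List.mem_cons] at hb
    rcases hb with hb | hb | hb | hb
    · exact h4 b (List.mem_append_left _ hb)
    · rw [hb]; exact h6
    · rw [hb]; exact h6
    · exact h4 b (List.mem_append_right _ hb)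
  | @box P n τ l r s a h ih =>
    obtain ⟨L, h1, h2⟩ := ih hn
    rw [List.map_append, List.map_cons, List.map_cons] at h1
    have h3 := Lab.box (a := a) h1
    rw [List.length_map] at h3
    refine ⟨L, by simpa using h3, fun hL => ?_⟩
    obtain ⟨h4, h5⟩ := h2 hL
    refine ⟨h4, fun x hx => ?_⟩
    rcases List.mem_cons.mp hx with rfl | hx
    · have : s = false := h4 s (by simp)
      rw [this]
    · exact h5 x hx
  | split h ih => omega
  | jump h ih => omega

/-- differences of the values -/
noncomputable def difs : List Bool → List ℝ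
  | a :: b :: t => fz (a ^^ b) :: difs (b :: t)
  | _ => []

lemma difs_append (l : List Bool) (a : Bool) (r : List Bool) :
    difs (l ++ a :: r) = difs (l ++ [a]) ++ difs (a :: r) := by
  induction l with
  | nil => simp [difs]
  | cons x l ih =>
    cases l with
    | nil => simp [difs]
    | cons y l =>
      simp only [List.cons_append, difs] at ih ⊢
      rw [ih]

lemma difs_length (l : List Bool) (a : Bool) : (difs (l ++ [a])).length = l.length := by
  induction l with
  | nil => simp [difs]
  | cons x l ih =>
    cases l with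
    | nil => simp [difs]
    | cons y l =>
      simp only [List.cons_append, difs, List.length_cons] at ih ⊢
      omega

lemma difs3 (l r : List Bool) (a b c : Bool) :
    difs (l ++ a :: b :: c :: r) = difs (l ++ [a]) ++ fz (a ^^ b) :: fz (b ^^ c) :: difs (c :: r) := by
  rw [difs_append]; rfl

lemma pot_lab {P : List (Item α)} {c : List Bool} {θ : List (PV Bool)}
    {e : List (Bool × Bool × Bool)} (h : Pot false false P c θ e)
    (h0 : ∀ q ∈ θ, true ∉ cor q) : ∃ L, Lab P L (difs c) ∧
      ((∀ s ∈ L, s = 0) → (∀ b ∈ c, b = false) ∧ ∀ y ∈ e, y.2.1 = false ∧ y.2.2 = false) := by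
  induction h with
  | nil => exact ⟨[], by simpa [difs, fz] using (Lab.nil : Lab ([] : List (Item α)) [] [0]), by simp⟩
  | @cup P l r a m θ e h ih =>
    obtain ⟨L, h1, h2⟩ := ih h0
    rw [difs3, Bool.xor_comm m a] at h1
    have h3 := Lab.cup h1
    rw [difs_length, ← difs_append] at h3
    refine ⟨L, h3, fun hL => ?_⟩
    obtain ⟨h4, h5⟩ := h2 hL
    refine ⟨fun b hb => h4 b ?_, fun y hy => ?_⟩
    · simp only [List.mem_append, List.mem_cons] at hb ⊢
      tauto
    · rcases List.mem_cons.mp hy with rfl | hy
      · exact ⟨h4 a (by simp), h4 m (by simp)⟩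
      · exact h5 y hy
  | @cap P l r a m θ e h ih =>
    obtain ⟨L, h1, h2⟩ := ih h0
    rw [difs_append] at h1
    have h3 := Lab.cap (s := fz (a ^^ m)) h1
    rw [difs_length] at h3
    refine ⟨fz (a ^^ m) :: L, ?_, fun hL => ?_⟩
    · rw [difs3, Bool.xor_comm m a]
      exact h3
    · obtain ⟨h4, h5⟩ := h2 (fun x hx => hL x (List.mem_cons_of_mem _ hx))
      have h6 : (a ^^ m) = false := fz_eq (hL _ List.mem_cons_self)
      have h7 : a = false := h4 a (by simp)
      have h8 : m = false := by
        rw [h7] at h6
        simpa using h6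
      refine ⟨fun b hb => ?_, fun y hy => ?_⟩
      · simp only [List.mem_append, List.mem_cons] at hb
        rcases hb with hb | hb | hb | hb | hb
        · exact h4 b (List.mem_append_left _ hb)
        · rw [hb]; exact h7
        · rw [hb]; exact h8
        · rw [hb]; exact h7
        · exact h4 b (List.mem_append_right _ (List.mem_cons_of_mem _ hb))
      · rcases List.mem_cons.mp hy with rfl | hy
        · exact ⟨h7, h8⟩
        · exact h5 y hy
  | @box P l r x q θ e h ih =>
    obtain ⟨L, h1, h2⟩ := ih (fun q' hq' => h0 q' (List.mem_cons_of_mem _ hq'))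
    have hq := h0 q List.mem_cons_self
    have hL' : q.L = false := by
      by_contra hc
      exact hq (by simp [cor, Bool.not_eq_false _ ▸ hc])
    have hB' : q.B = false := by
      by_contra hc
      exact hq (by simp [cor, Bool.not_eq_false _ ▸ hc])
    have hR' : q.R = false := by
      by_contra hc
      exact hq (by simp [cor, Bool.not_eq_false _ ▸ hc])
    have hT' : q.T = false := by
      by_contra hc
      exact hq (by simp [cor, Bool.not_eq_false _ ▸ hc])
    rw [difs3, hL', hT', hR'] at h1
    have h3 := Lab.box (a := x) h1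
    rw [difs_length] at h3
    refine ⟨L, ?_, fun hL => ?_⟩
    · rw [difs3, hL', hB', hR']
      exact h3
    · obtain ⟨h4, h5⟩ := h2 hL
      refine ⟨fun b hb => ?_, h5⟩
      simp only [List.mem_append, List.mem_cons] at hb
      rcases hb with hb | hb | hb | hb | hb
      · exact h4 b (List.mem_append_left _ hb)
      · rw [hb]; exact hL'
      · rw [hb]; exact hB'
      · rw [hb]; exact hR'
      · exact h4 b (by simp [hb])

end Sig

/-- labellings without defects -/
theorem cuts_zero {P : List (Item α)} (hc : Conn P) {τ : List (Bool × Bool)}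
    (h : Cuts P 0 τ [false]) : ∀ x ∈ τ, x = (false, false) := by
  obtain ⟨L, h1, h2⟩ := Sig.cuts_lab h rfl
  exact (h2 (hc L _ h1)).2

/-- marked regions which touch no vertex -/
theorem touch {P : List (Item α)} (hc : Conn P) {θ : List (PV Bool)} {e : List (Bool × Bool × Bool)}
    (h : Pot false false P [false, false] θ e) (h0 : ∀ q ∈ θ, true ∉ cor q) :
    ∀ y ∈ e, y.2.1 = false ∧ y.2.2 = false := by
  obtain ⟨L, h1, h2⟩ := Sig.pot_lab h h0
  exact (h2 (hc L _ h1)).2

end Pool.Agent.Helper77.CR
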